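import Pool.Agent.H46.CH.DL
import Pool.Agent.H33.JS.NU

/-!
# Row TN1: the sizes of the trees, from the alternating machine
-/

set_option autoImplicit false
set_option linter.unusedVariables false

namespace Pool.Agent.H75.CHD

open Classical Pool.Agent.H46.CH
open Pool.Agent.H8.VR (C2)
open Pool.Agent.H8.JS (NTM Cfg Mv IsComp lang num)

theorem sum_single {k d : ℕ} (f : Ct k d → ℕ) (a : Ct k d) (h : ∀ j, j ≠ a → f j = 0) :
    ∑ j, f j = f a := Finset.sum_eq_single a (fun j _ hj => h j hj) fun h => absurd (Finset.mem_univ a) h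

/-- the bound for the first stage -/
theorem bound (x : List Bool) (B c d₁ ld sv sr z : ℕ)
    (hld : ld ≤ (x.length + 3) * (1 + 2 * num x + B ^ (x.length + 1)))
    (hsv : sv ≤ (num x + 1) ^ d₁) (hz : z ≤ 2 ^ (c * (x.length + 1)))
    (hsr : sr ≤ z * (2 * (num x + 1) ^ d₁ + 1)) :
    ld + sv + (1 + num x) + (1 + num x) + sr ≤ (num x + 1) ^ (2 * B + d₁ + 2 * c + 8) := by
  have hnum := (Pool.Agent.H33.JS.num_bd x).1
  set n := num x with hn
  set K := n + 1 with hK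
  have hK2 : 2 ≤ K := by
    have : 1 ≤ 2 ^ x.length := Nat.one_le_two_pow
    omega
  have hlen : x.length + 3 ≤ K ^ 2 := by
    have h7 : x.length < 2 ^ x.length := Nat.lt_two_pow_self
    nlinarith
  have h2x : 2 ^ (x.length + 1) ≤ K ^ 2 := by
    rw [pow_succ]
    nlinarith
  have hpw : ∀ a : ℕ, (2 ^ (x.length + 1)) ^ a ≤ K ^ (2 * a) := by
    intro a
    calc (2 ^ (x.length + 1)) ^ a ≤ (K ^ 2) ^ a := Nat.pow_le_pow_left h2x _
      _ = K ^ (2 * a) := by rw [← pow_mul]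
  have hB : B ^ (x.length + 1) ≤ K ^ (2 * B) := by
    calc B ^ (x.length + 1) ≤ (2 ^ B) ^ (x.length + 1) :=
          Nat.pow_le_pow_left Nat.lt_two_pow_self.le _
      _ = (2 ^ (x.length + 1)) ^ B := by rw [← pow_mul, ← pow_mul, mul_comm]
      _ ≤ K ^ (2 * B) := hpw B
  have hZ : z ≤ K ^ (2 * c) := by
    calc z ≤ 2 ^ (c * (x.length + 1)) := hz
      _ = (2 ^ (x.length + 1)) ^ c := by rw [← pow_mul, mul_comm]
      _ ≤ K ^ (2 * c) := hpw c
  have hmono : ∀ a b : ℕ, a ≤ b → K ^ a ≤ K ^ b := fun a b h =>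
    Nat.pow_le_pow_right (by omega) h
  set m := 2 * B + d₁ + 2 * c + 6 with hm
  have e1 : (x.length + 3) * (1 + 2 * n + B ^ (x.length + 1)) ≤ K ^ m := by
    have t1 : 1 + 2 * n ≤ K ^ 2 := by nlinarith
    have t2 : 1 + 2 * n + B ^ (x.length + 1) ≤ K ^ (2 * B + 3) := by
      have t3 : K ^ 2 ≤ K ^ (2 * B + 2) := hmono _ _ (by omega)
      have t4 : K ^ (2 * B) ≤ K ^ (2 * B + 2) := hmono _ _ (by omega)
      have t5 : K ^ (2 * B + 3) = K ^ (2 * B + 2) * K := by rw [← pow_succ]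
      rw [t5]
      have t6 : 0 < K ^ (2 * B + 2) := by positivity
      nlinarith
    calc (x.length + 3) * (1 + 2 * n + B ^ (x.length + 1)) ≤ K ^ 2 * K ^ (2 * B + 3) :=
          Nat.mul_le_mul hlen t2
      _ = K ^ (2 + (2 * B + 3)) := (pow_add K 2 (2 * B + 3)).symm
      _ ≤ K ^ m := hmono _ _ (by omega)
  have e6 : 4 ≤ K ^ 2 := by nlinarith
  have e2 : z * (2 * K ^ d₁ + 1) ≤ K ^ m := by
    have t1 : 2 * K ^ d₁ + 1 ≤ K ^ 2 * K ^ d₁ := by
      have t2 : 1 ≤ K ^ d₁ := Nat.one_le_pow _ _ (by omega)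
      nlinarith
    calc z * (2 * K ^ d₁ + 1) ≤ K ^ (2 * c) * (K ^ 2 * K ^ d₁) := Nat.mul_le_mul hZ t1
      _ = K ^ (2 * c + (2 + d₁)) := by rw [pow_add, pow_add]
      _ ≤ K ^ m := hmono _ _ (by omega)
  have e3 : K ^ d₁ ≤ K ^ m := hmono _ _ (by omega)
  have e4 : 2 * K ≤ K ^ m := by
    calc 2 * K ≤ K ^ 2 := by nlinarith
      _ ≤ K ^ m := hmono _ _ (by omega)
  have e5 : K ^ (2 * B + d₁ + 2 * c + 8) = K ^ m * K ^ 2 := by
    rw [← pow_add]
  have e7 : 4 * K ^ m ≤ K ^ m * K ^ 2 := by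
    rw [mul_comm]
    exact Nat.mul_le_mul_left _ e6
  rw [e5]
  omega

theorem pf_TN1 (hIR : T_TIR) (hLD : T_LD) (hTLD : T_TLD) (hTCL : T_TCL) (hTVS : T_TVS)
    (hTA1 : T_TA1) (hIR0 : T_IR) (hO1 : T_O1) (hO2 : T_O2) : Pool.Agent.H46.CH.T_TN1 := by
  intro M br c B cd hc hsp
  obtain ⟨d₁, hd₁⟩ := hTVS M br c B cd hc hsp
  refine ⟨2 * B + d₁ + 2 * c + 8, fun d x hfB hz => ?_⟩
  obtain ⟨z, hz, htr⟩ := hz
  obtain ⟨v, hv, hvle⟩ := hd₁ d x _ ARch.ini
  obtain ⟨v₁, s, h1, h2, h3⟩ := hLD M B cd d hc x v hv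
  obtain ⟨i, sr, h4, h5, h6, h7⟩ := hTA1 M br B cd hc x d ((num x + 1) ^ d₁)
    (fun cc hcc => hd₁ d x cc hcc) z _ htr ARch.ini v hv
  have hN : v .N = num x := hv.2.2.1
  have hb := bound x B c d₁ (s + (1 + ∑ j, v₁ j)) (1 + ∑ j, v j) (sr false) z h3 hvle hz h7
  obtain ⟨D, hD⟩ : ∃ D, fB d (num x) = s + (1 + ∑ j, v₁ j) + (1 + ∑ j, v j) + (1 + num x) +
      (1 + num x) + sr false + D := by
    obtain ⟨D, hD⟩ := Nat.exists_eq_add_of_le (hb.trans hfB)
    exact ⟨D, hD⟩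
  -- the clock
  obtain ⟨w, hw⟩ : ∃ w : Ct M.k d → ℕ, w = fun j => if j = .N then v .N else 0 := ⟨_, rfl⟩
  obtain ⟨y, hy⟩ : ∃ y : Ct M.k d → ℕ, y = fun j => if j = .D then D else w j := ⟨_, rfl⟩
  obtain ⟨u, hu⟩ : ∃ u : Ct M.k d → ℕ, u = fun j => match j with
    | .w _ => y .N
    | _ => 0 := ⟨_, rfl⟩
  have r1 : (tmA M B cd d).Rel .clear v w := by
    rw [(hIR0 M B cd d v w).2.2.2.1, hw]
    exact fun _ => rfl
  have r2 : (tmA M B cd d).Rel .pad w y := by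
    rw [(hIR0 M B cd d w y).2.2.2.2.1, hy]
    refine ⟨?_, fun j hj => ?_⟩
    · rw [hw]
      simp
    · simp [hj]
  have r3 : (tmA M B cd d).Rel .begB y u := by
    rw [(hIR0 M B cd d y u).2.2.2.2.2.1, hu]
    exact fun _ => rfl
  have hyN : y .N = num x := by
    rw [hy, hw]
    simp [hN]
  have hu' : ∀ j, u j = match j with
      | .w _ => num x
      | _ => 0 := by
    intro j
    rw [hu]
    cases j <;> first | rfl | exact hyN
  obtain ⟨e, v₅, s₂, n1, p1⟩ := hO2 M B cd d (num x) u hu'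
  have hs₂ := hO1 M B cd d (num x) u v₅ e s₂ hu' n1 p1
  have hsw : ∑ j, w j = num x := by
    rw [sum_single w .N, hw]
    · simp [hN]
    · intro j hj
      rw [hw]
      simp [hj]
  have hsy : ∑ j, y j = num x + D := by
    have h7 : ∀ j, y j = w j + if j = .D then D else 0 := by
      intro j
      rw [hy]
      by_cases hj : j = .D
      · subst hj
        simp [hw]
      · simp [hj]
    simp only [h7]
    rw [Finset.sum_add_distrib, hsw]
    simp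
  -- the left side
  obtain ⟨t₁, ht₁⟩ : ∃ t₁ : Bool → ℕ, t₁ = fun b => if b = true then s₂ + (1 + ∑ j, v₅ j) + 1
    else (1 + ∑ j, v j) + (1 + ∑ j, w j) + (1 + ∑ j, y j) := ⟨_, rfl⟩
  have T1 : (tmT M br B cd d).Tre (.inl .clear) v t₁ := by
    rw [hTCL]
    refine ⟨w, y, u, v₅, e, s₂, r1, r2, r3, n1, p1, ?_, ?_⟩
    · rw [ht₁]
      simp
    · rw [ht₁]
      simp
  -- the end of the loading part
  obtain ⟨t₂, ht₂⟩ : ∃ t₂ : Bool → ℕ, t₂ = fun b =>
    (tmT M br B cd d).own (.inl .endl) v₁ b + t₁ b + sr b := ⟨_, rfl⟩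
  have hrel : (tmT M br B cd d).Rel (.inl .endl) v₁ v := ((hIR M br B cd d v₁ v).1 .endl).2 h2
  have T2 : (tmT M br B cd d).Tre (.inl .endl) v₁ t₂ := by
    refine BM.Tre.two (M := tmT M br B cd d) (.inl .endl) v₁ (.inl .clear) v t₁ i v sr t₂ rfl rfl h4
      hrel hrel T1 h5 fun b => ?_
    rw [ht₂]
  obtain ⟨t₃, ht₃⟩ : ∃ t₃ : Bool → ℕ, t₃ = fun b => if b = true then t₂ true else s + t₂ false :=
    ⟨_, rfl⟩
  have T3 : (tmT M br B cd d).Tre (.inl .start) (fun _ => 0) t₃ := by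
    rw [hTLD]
    refine ⟨v₁, s, t₂, h1, T2, ?_, ?_⟩
    · rw [ht₃]
      simp
    · rw [ht₃]
      simp
  have own1 : (tmT M br B cd d).own (.inl .endl) v₁ false = 1 + ∑ j, v₁ j := by
    unfold BM.own
    exact if_pos rfl
  have own2 : (tmT M br B cd d).own (.inl .endl) v₁ true = 0 := by
    unfold BM.own
    exact if_neg (fun h => Bool.false_ne_true h)
  have f1 : t₁ false = (1 + ∑ j, v j) + (1 + ∑ j, w j) + (1 + ∑ j, y j) := by
    rw [ht₁]
    simp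
  have f2 : t₁ true = s₂ + (1 + ∑ j, v₅ j) + 1 := by
    rw [ht₁]
    simp
  have f3 : t₂ false = (1 + ∑ j, v₁ j) + t₁ false + sr false := by
    rw [ht₂, ← own1]
  have f4 : t₂ true = 0 + t₁ true + sr true := by
    rw [ht₂, ← own2]
  have f5 : t₃ false = s + t₂ false := by
    rw [ht₃]
    simp
  have f6 : t₃ true = t₂ true := by
    rw [ht₃]
    simp
  have g1 : t₃ true = fB d (num x) := by
    rw [f6, f4, f2, h6, ← hs₂]
    omega
  have g2 : t₃ false = fB d (num x) := by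
    rw [f5, f3, f1, hsw, hsy, hD]
    omega
  refine ⟨.inl .start, t₃, rfl, T3, by rw [g1, g2], ?_⟩
  rw [g1, g2]
  ring

end Pool.Agent.H75.CHD
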